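import Mathlib
import Pool.Agent.V1114.FrobKer

/-!
# A connected unipotent group without rational structures on the regular module of its Frobenius
kernel
-/

namespace Pool.Agent.Results.MP_da3f29_al.NoRationalStructure

open TensorProduct

section Generic

variable {K M A B : Type} [CommSemiring K] [AddCommMonoid M] [Module K M] [AddCommMonoid A]
  [Module K A] [Coalgebra K A] [AddCommMonoid B] [Module K B]

/-- Coassociativity of a coaction: `(ρ ⊗ id) ρ = (id ⊗ Δ) ρ`. -/
def Coassociative (ρ : M →ₗ[K] M ⊗[K] A) : Prop :=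
  ∀ m, TensorProduct.assoc K M A A (TensorProduct.map ρ LinearMap.id (ρ m))
    = TensorProduct.map LinearMap.id Coalgebra.comul (ρ m)

/-- The counit law of a coaction: `(id ⊗ ε) ρ = id`. -/
def Counital (ρ : M →ₗ[K] M ⊗[K] A) : Prop :=
  ∀ m, TensorProduct.rid K M (TensorProduct.map LinearMap.id Coalgebra.counit (ρ m)) = m

/-- For a comodule `ρ : M → M ⊗ A` and a surjection of coalgebras `π : A → B`, the
`B`-comodule `M` is isomorphic to the regular comodule `B`: there is a linear isomorphism `e` with
`(e ⊗ π) (ρ m) = Δ_B (e m)`, where `Δ_B (π a) = (π ⊗ π) (Δ a)`. -/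
def RegularVia (π : A →ₗ[K] B) (ρ : M →ₗ[K] M ⊗[K] A) : Prop :=
  ∃ e : M ≃ₗ[K] B, ∀ (m : M) (a : A), π a = e m →
    TensorProduct.map e.toLinearMap π (ρ m) = TensorProduct.map π π (Coalgebra.comul a)

end Generic

/-- A rational module of the affine group scheme with coordinate Hopf algebra `A`, i.e. a right
`A`-comodule. -/
structure RatModule (K A : Type) [Field K] [CommRing A] [HopfAlgebra K A] where
  /-- the underlying vector space -/
  M : Type
  [grp : AddCommGroup M]
  [mod : Module K M]
  /-- the coaction -/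
  coact : M →ₗ[K] M ⊗[K] A
  coassoc : Coassociative coact
  counit : Counital coact

attribute [instance] RatModule.grp RatModule.mod

/-- The ideal of `K ⊗ A₀` defining the kernel of the `q`-Frobenius morphism, `q = |F|`: it is
generated by the elements `1 ⊗ a ^ q` with `a ∈ A₀` in the augmentation ideal. -/
def frobIdeal (F K A₀ : Type) [Field F] [Fintype F] [Field K] [Algebra F K] [CommRing A₀]
    [HopfAlgebra F A₀] : Ideal (K ⊗[F] A₀) :=
  Ideal.span {x | ∃ a : A₀, Coalgebra.counit (R := F) a = 0 ∧ x = 1 ⊗ₜ (a ^ Fintype.card F)}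

/-- The projection to the coordinate algebra of the Frobenius kernel. -/
noncomputable def proj (F K A₀ : Type) [Field F] [Fintype F] [Field K] [Algebra F K]
    [CommRing A₀] [HopfAlgebra F A₀] : (K ⊗[F] A₀) →ₗ[K] (K ⊗[F] A₀) ⧸ frobIdeal F K A₀ :=
  (Ideal.Quotient.mkₐ K (frobIdeal F K A₀)).toLinearMap

/-- The restriction of `V` to the Frobenius kernel is isomorphic to its coordinate algebra with
the regular action. -/
def RegularOnFrobKer (F K A₀ : Type) [Field F] [Fintype F] [Field K] [Algebra F K] [CommRing A₀]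
    [HopfAlgebra F A₀] (V : RatModule K (K ⊗[F] A₀)) : Prop :=
  RegularVia (proj F K A₀) V.coact

/-- The affine group scheme with coordinate Hopf algebra `A₀` is unipotent: it is a closed
subgroup scheme of a group of unitriangular matrices. -/
def IsUnipotent (F A₀ : Type) [Field F] [CommRing A₀] [HopfAlgebra F A₀] : Prop :=
  ∃ (n : ℕ) (c : Matrix (Fin n) (Fin n) A₀), (∀ i, c i i = 1) ∧ (∀ i j, j < i → c i j = 0) ∧
    (∀ i j, Coalgebra.comul (R := F) (c i j) = ∑ l, c i l ⊗ₜ[F] c l j) ∧
    Algebra.adjoin F (Set.range fun ij : Fin n × Fin n => c ij.1 ij.2) = ⊤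

open Pool.Agent.V1114.FrobKer MvPolynomial

variable (F : Type) [Field F] [Fintype F]

/-- The bialgebra structure. -/
@[instance_reducible]
noncomputable def bialg : Bialgebra F (R F) :=
  Bialgebra.ofAlgHom (Δ F (Fintype.card F)) (aeval fun _ => (0 : F))
    (by
      apply MvPolynomial.algHom_ext
      intro i
      have hadd : ∀ a b : R F ⊗[F] R F,
          (a + b) ^ Fintype.card F = a ^ Fintype.card F + b ^ Fintype.card F :=
        fun a b => map_add (FiniteField.frobeniusAlgHom F (R F ⊗[F] R F)) a b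
      fin_cases i
      · simp [Δ, TensorProduct.add_tmul, TensorProduct.tmul_add, Algebra.TensorProduct.one_def]
        abel
      · simp [Δ, TensorProduct.add_tmul, TensorProduct.tmul_add, Algebra.TensorProduct.one_def]
        abel
      · simp [Δ, TensorProduct.add_tmul, TensorProduct.tmul_add, Algebra.TensorProduct.one_def,
          hadd]
        abel)
    (by
      apply MvPolynomial.algHom_ext
      intro i
      fin_cases i <;> simp [Δ])
    (by
      apply MvPolynomial.algHom_ext
      intro i
      fin_cases i <;> simp [Δ])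

/-- The Hopf algebra structure. -/
@[instance_reducible]
noncomputable def hopf : HopfAlgebra F (R F) :=
  letI := bialg F
  HopfAlgebra.ofAlgHom (aeval ![-X 0, -X 1, -X 2 + X 0 ^ Fintype.card F * X 1])
    (by
      apply MvPolynomial.algHom_ext
      intro i
      have hneg : (-X 0 : R F) ^ Fintype.card F = -(X 0 ^ Fintype.card F) :=
        map_neg (FiniteField.frobeniusAlgHom F (R F)) (X 0)
      have hc : ∀ f, Bialgebra.comulAlgHom F (R F) f = Δ F (Fintype.card F) f := fun f => rfl
      have he : ∀ f, Bialgebra.counitAlgHom F (R F) f = aeval (fun _ => (0 : F)) f := fun f => rfl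
      rw [AlgHom.comp_apply, AlgHom.comp_apply, hc, he]
      fin_cases i <;> simp [Δ, hneg])
    (by
      apply MvPolynomial.algHom_ext
      intro i
      have hc : ∀ f, Bialgebra.comulAlgHom F (R F) f = Δ F (Fintype.card F) f := fun f => rfl
      have he : ∀ f, Bialgebra.counitAlgHom F (R F) f = aeval (fun _ => (0 : F)) f := fun f => rfl
      rw [AlgHom.comp_apply, AlgHom.comp_apply, hc, he]
      fin_cases i <;> simp [Δ])

lemma hopf_comul (f : R F) :
    @Coalgebra.comul F (R F) _ _ _ (hopf F).toBialgebra.toCoalgebra.toCoalgebraStruct f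
      = Δ F (Fintype.card F) f := rfl

lemma hopf_counit (f : R F) :
    @Coalgebra.counit F (R F) _ _ _ (hopf F).toBialgebra.toCoalgebra.toCoalgebraStruct f
      = aeval (fun _ => (0 : F)) f := rfl

lemma unipotent : @IsUnipotent F (R F) _ _ (hopf F) := by
  let := hopf F
  have hadd : ∀ a b : R F ⊗[F] R F,
      (a + b) ^ Fintype.card F = a ^ Fintype.card F + b ^ Fintype.card F :=
    fun a b => map_add (FiniteField.frobeniusAlgHom F (R F ⊗[F] R F)) a b
  refine ⟨5, !![1, X 0, 0, 0, 0; 0, 1, 0, 0, 0; 0, 0, 1, X 0 ^ Fintype.card F, X 2;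
    0, 0, 0, 1, X 1; 0, 0, 0, 0, 1], ?_, ?_, ?_, ?_⟩
  · intro i
    fin_cases i <;> rfl
  · intro i j hij
    fin_cases i <;> fin_cases j <;> first | rfl | exact absurd hij (by decide)
  · intro i j
    rw [hopf_comul]
    rw [Fin.sum_univ_five]
    fin_cases i <;> fin_cases j <;>
      simp [Δ, hadd, Algebra.TensorProduct.one_def, add_comm, add_left_comm]
  · rw [eq_top_iff, ← MvPolynomial.adjoin_range_X]
    apply Algebra.adjoin_mono
    rintro _ ⟨i, rfl⟩
    fin_cases i
    · exact ⟨(0, 1), rfl⟩
    · exact ⟨(3, 4), rfl⟩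
    · exact ⟨(2, 4), rfl⟩

section Main

/-- The coordinate ring `F[x, y, z]` as a bare type. -/
def A0 (F : Type) [Field F] : Type := MvPolynomial (Fin 3) F

noncomputable instance : CommRing (A0 F) := inferInstanceAs (CommRing (MvPolynomial (Fin 3) F))

noncomputable instance hopfA0 : HopfAlgebra F (A0 F) := hopf F

variable (K : Type) [Field K] [Algebra F K]

/-- The identification of `K ⊗ F[x,y,z]` with `K[x,y,z]`. -/
noncomputable def phi : K ⊗[F] A0 F ≃ₐ[K] R K := MvPolynomial.algebraTensorAlgEquiv F K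

/-- The variables. -/
noncomputable def x (i : Fin 3) : A0 F := (X i : MvPolynomial (Fin 3) F)

lemma phi_X (i : Fin 3) : phi F K (1 ⊗ₜ x F i) = X i := by
  show MvPolynomial.algebraTensorAlgEquiv F K (1 ⊗ₜ (X i : MvPolynomial (Fin 3) F)) = X i
  simp

lemma comul_x0 : Coalgebra.comul (R := F) (x F 0) = x F 0 ⊗ₜ[F] 1 + 1 ⊗ₜ x F 0 := by
  show Δ F (Fintype.card F) (X 0) = _
  simp [Δ]
  rfl

lemma comul_x1 : Coalgebra.comul (R := F) (x F 1) = x F 1 ⊗ₜ[F] 1 + 1 ⊗ₜ x F 1 := by
  show Δ F (Fintype.card F) (X 1) = _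
  simp [Δ]
  rfl

lemma comul_x2 : Coalgebra.comul (R := F) (x F 2) = x F 2 ⊗ₜ[F] 1 + 1 ⊗ₜ x F 2
    + (x F 0 ^ Fintype.card F) ⊗ₜ x F 1 := by
  show Δ F (Fintype.card F) (X 2) = _
  simp [Δ]
  rfl

lemma alg_ext {B : Type} [CommRing B] [Algebra F B] {f g : A0 F →ₐ[F] B}
    (h : ∀ i, f (x F i) = g (x F i)) : f = g := by
  have := MvPolynomial.algHom_ext (f := (f : MvPolynomial (Fin 3) F →ₐ[F] B)) (g := g) h
  exact this

lemma comul_tmul_of (f a b : A0 F) (c d : A0 F) (u v : A0 F)
    (h : Coalgebra.comul (R := F) f = a ⊗ₜ[F] b + c ⊗ₜ d + u ⊗ₜ v) :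
    Coalgebra.comul (R := K) ((1 : K) ⊗ₜ[F] f)
      = ((1 : K) ⊗ₜ[F] a) ⊗ₜ[K] ((1 : K) ⊗ₜ[F] b) + ((1 : K) ⊗ₜ[F] c) ⊗ₜ ((1 : K) ⊗ₜ[F] d)
        + ((1 : K) ⊗ₜ[F] u) ⊗ₜ ((1 : K) ⊗ₜ[F] v) := by
  rw [TensorProduct.comul_tmul, h, CommSemiring.comul_apply, TensorProduct.tmul_add,
    TensorProduct.tmul_add, map_add, map_add]
  rfl

lemma comul_phi (a : K ⊗[F] A0 F) :
    TensorProduct.map (phi F K).toLinearMap (phi F K).toLinearMap (Coalgebra.comul a)
      = Δ K (Fintype.card F) (phi F K a) := by
  have h : (Algebra.TensorProduct.map (phi F K : K ⊗[F] A0 F →ₐ[K] R K)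
      (phi F K : K ⊗[F] A0 F →ₐ[K] R K)).comp (Bialgebra.comulAlgHom K (K ⊗[F] A0 F))
      = (Δ K (Fintype.card F)).comp (phi F K : K ⊗[F] A0 F →ₐ[K] R K) := by
    apply Algebra.TensorProduct.ext
    · ext
    · apply alg_ext
      intro i
      show (TensorProduct.map (phi F K).toLinearMap (phi F K).toLinearMap)
        (Coalgebra.comul (R := K) ((1 : K) ⊗ₜ[F] x F i))
        = Δ K (Fintype.card F) (phi F K (1 ⊗ₜ x F i))
      rw [phi_X]
      have hpow : ∀ (n : ℕ), phi F K (1 ⊗ₜ (x F 0 ^ n)) = X 0 ^ n := by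
        intro n
        have : (1 : K) ⊗ₜ[F] (x F 0 ^ n) = (1 ⊗ₜ x F 0) ^ n := by
          rw [Algebra.TensorProduct.tmul_pow, one_pow]
        rw [this, map_pow, phi_X]
      have hone : phi F K (1 ⊗ₜ 1) = 1 := map_one (phi F K)
      have hL : ∀ y, (phi F K).toLinearMap y = phi F K y := fun _ => rfl
      fin_cases i
      · have h0 : Coalgebra.comul (R := F) (x F 0)
            = x F 0 ⊗ₜ[F] 1 + 1 ⊗ₜ x F 0 + 0 ⊗ₜ 0 := by
          rw [comul_x0, TensorProduct.zero_tmul, add_zero]
        show (TensorProduct.map (phi F K).toLinearMap (phi F K).toLinearMap)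
          (Coalgebra.comul (R := K) ((1 : K) ⊗ₜ[F] x F 0)) = _
        rw [comul_tmul_of F K _ _ _ _ _ _ _ h0, map_add, map_add, TensorProduct.map_tmul,
          TensorProduct.map_tmul, TensorProduct.map_tmul, hL, hL, phi_X, hone]
        simp [Δ]
      · have h0 : Coalgebra.comul (R := F) (x F 1)
            = x F 1 ⊗ₜ[F] 1 + 1 ⊗ₜ x F 1 + 0 ⊗ₜ 0 := by
          rw [comul_x1, TensorProduct.zero_tmul, add_zero]
        show (TensorProduct.map (phi F K).toLinearMap (phi F K).toLinearMap)
          (Coalgebra.comul (R := K) ((1 : K) ⊗ₜ[F] x F 1)) = _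
        rw [comul_tmul_of F K _ _ _ _ _ _ _ h0, map_add, map_add, TensorProduct.map_tmul,
          TensorProduct.map_tmul, TensorProduct.map_tmul, hL, hL, phi_X, hone]
        simp [Δ]
      · show (TensorProduct.map (phi F K).toLinearMap (phi F K).toLinearMap)
          (Coalgebra.comul (R := K) ((1 : K) ⊗ₜ[F] x F 2)) = _
        rw [comul_tmul_of F K _ _ _ _ _ _ _ (comul_x2 F), map_add, map_add,
          TensorProduct.map_tmul, TensorProduct.map_tmul, TensorProduct.map_tmul, hL, hL, hL, hL,
          phi_X, phi_X, hone, hpow]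
        simp [Δ]
  exact congrArg (fun g : K ⊗[F] A0 F →ₐ[K] R K ⊗[K] R K => g a) h

lemma counit_x (i : Fin 3) : Coalgebra.counit (R := F) (x F i) = 0 := by
  show aeval (fun _ => (0 : F)) (X i : MvPolynomial (Fin 3) F) = 0
  simp

lemma card_ne : Fintype.card F ≠ 0 := Fintype.card_ne_zero

/-- The ideals of the Frobenius kernels agree. -/
lemma frobIdeal_iff (a : K ⊗[F] A0 F) :
    a ∈ frobIdeal F K (A0 F) ↔ phi F K a ∈ I K (Fintype.card F) := by
  have hpowt : ∀ (f : A0 F) (n : ℕ), (1 : K) ⊗ₜ[F] (f ^ n) = (1 ⊗ₜ f) ^ n := by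
    intro f n
    rw [Algebra.TensorProduct.tmul_pow, one_pow]
  have h1 : ∀ a ∈ frobIdeal F K (A0 F), phi F K a ∈ I K (Fintype.card F) := by
    intro a ha
    unfold frobIdeal at ha
    induction ha using Submodule.span_induction with
    | mem y hy =>
      obtain ⟨f, hf, rfl⟩ := hy
      let Ψ : A0 F →ₐ[F] R K ⧸ I K (Fintype.card F) :=
        (FiniteField.frobeniusAlgHom F (R K ⧸ I K (Fintype.card F))).comp
          (((Ideal.Quotient.mkₐ F (I K (Fintype.card F))).comp
            ((phi F K).toAlgHom.restrictScalars F)).comp Algebra.TensorProduct.includeRight)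
      have hΨ : Ψ = (Algebra.ofId F (R K ⧸ I K (Fintype.card F))).comp
          (Bialgebra.counitAlgHom F (A0 F)) := by
        apply alg_ext
        intro i
        have e1 : Ψ (x F i) = (Ideal.Quotient.mk (I K (Fintype.card F))
            (phi F K (1 ⊗ₜ x F i))) ^ Fintype.card F := rfl
        have e2 : ((Algebra.ofId F (R K ⧸ I K (Fintype.card F))).comp
          (Bialgebra.counitAlgHom F (A0 F))) (x F i)
            = algebraMap F (R K ⧸ I K (Fintype.card F)) (Coalgebra.counit (R := F) (x F i)) := rfl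
        rw [e1, e2, phi_X, counit_x, map_zero, ← map_pow, Ideal.Quotient.eq_zero_iff_mem]
        exact X_mem K _ i
      have e3 : Ψ f = (Ideal.Quotient.mk (I K (Fintype.card F))
            (phi F K (1 ⊗ₜ f))) ^ Fintype.card F := rfl
      have e4 : Ψ f = algebraMap F (R K ⧸ I K (Fintype.card F))
          (Coalgebra.counit (R := F) f) := by rw [hΨ]; rfl
      rw [e3, hf, map_zero, ← map_pow, Ideal.Quotient.eq_zero_iff_mem, ← map_pow] at e4
      rw [hpowt]
      exact e4
    | zero => rw [map_zero]; exact Ideal.zero_mem _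
    | add a b _ _ ha hb => rw [map_add]; exact Ideal.add_mem _ ha hb
    | smul c a _ ha => rw [smul_eq_mul, map_mul]; exact Ideal.mul_mem_left _ _ ha
  have h2 : ∀ f ∈ I K (Fintype.card F), (phi F K).symm f ∈ frobIdeal F K (A0 F) := by
    intro f hf
    unfold I at hf
    induction hf using Submodule.span_induction with
    | mem y hy =>
      obtain ⟨i, rfl⟩ := hy
      have e1 : (phi F K).symm (X i ^ Fintype.card F) = 1 ⊗ₜ (x F i ^ Fintype.card F) := by
        rw [map_pow, hpowt]
        congr 1
        rw [AlgEquiv.symm_apply_eq, phi_X]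
      rw [e1]
      exact Ideal.subset_span ⟨x F i, counit_x F i, rfl⟩
    | zero => rw [map_zero]; exact Ideal.zero_mem _
    | add a b _ _ ha hb => rw [map_add]; exact Ideal.add_mem _ ha hb
    | smul c a _ ha => rw [smul_eq_mul, map_mul]; exact Ideal.mul_mem_left _ _ ha
  refine ⟨h1 a, fun h => ?_⟩
  have := h2 _ h
  rwa [AlgEquiv.symm_apply_apply] at this

/-- The counit kills the ideal of the Frobenius kernel. -/
lemma counit_frob (a : K ⊗[F] A0 F) (ha : a ∈ frobIdeal F K (A0 F)) :
    Coalgebra.counit (R := K) a = 0 := by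
  show Bialgebra.counitAlgHom K (K ⊗[F] A0 F) a = 0
  unfold frobIdeal at ha
  induction ha using Submodule.span_induction with
  | mem y hy =>
    obtain ⟨f, hf, rfl⟩ := hy
    show Coalgebra.counit (R := K) ((1 : K) ⊗ₜ[F] (f ^ Fintype.card F)) = 0
    rw [TensorProduct.counit_tmul]
    have : Coalgebra.counit (R := F) (f ^ Fintype.card F) = 0 := by
      show Bialgebra.counitAlgHom F (A0 F) (f ^ Fintype.card F) = 0
      rw [map_pow]
      show (Coalgebra.counit (R := F) f) ^ Fintype.card F = 0
      rw [hf, zero_pow (card_ne F)]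
    rw [this, zero_smul]
  | zero => rw [map_zero]
  | add a b _ _ ha hb => rw [map_add, ha, hb, add_zero]
  | smul c a _ ha => rw [smul_eq_mul, map_mul, ha, mul_zero]

theorem no_structure (V : RatModule K (K ⊗[F] A0 F)) : ¬ RegularOnFrobKer F K (A0 F) V := by
  rintro ⟨e, he⟩
  -- evaluation at the identity
  let εq : ((K ⊗[F] A0 F) ⧸ frobIdeal F K (A0 F)) →ₐ[K] K :=
    Ideal.Quotient.liftₐ _ (Bialgebra.counitAlgHom K (K ⊗[F] A0 F)) (fun a ha =>
      counit_frob F K a ha)
  let ev : V.M →ₗ[K] K := εq.toLinearMap.comp e.toLinearMap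
  let g : V.M ⊗[K] (K ⊗[F] A0 F) →ₗ[K] (K ⊗[F] A0 F) :=
    (TensorProduct.lid K (K ⊗[F] A0 F)).toLinearMap.comp (TensorProduct.map ev LinearMap.id)
  let EA : V.M →ₗ[K] (K ⊗[F] A0 F) := g.comp V.coact
  -- it lifts `e`
  have hE1 : ∀ m, proj F K (A0 F) (EA m) = e m := by
    intro m
    obtain ⟨a, ha⟩ := Ideal.Quotient.mk_surjective (e m)
    have h1 := he m a ha
    have h2 : ∀ t : V.M ⊗[K] (K ⊗[F] A0 F), proj F K (A0 F) (g t)
        = TensorProduct.lid K _ (TensorProduct.map εq.toLinearMap LinearMap.id
          (TensorProduct.map e.toLinearMap (proj F K (A0 F)) t)) := by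
      intro t
      induction t with
      | zero => simp
      | tmul u v =>
        show proj F K (A0 F) (TensorProduct.lid K _ (ev u ⊗ₜ v))
          = TensorProduct.lid K _ (εq (e u) ⊗ₜ proj F K (A0 F) v)
        rw [TensorProduct.lid_tmul, TensorProduct.lid_tmul, map_smul]
        rfl
      | add s t hs ht => rw [map_add, map_add, hs, ht, map_add, map_add, map_add]
    have h3 : ∀ t : (K ⊗[F] A0 F) ⊗[K] (K ⊗[F] A0 F),
        TensorProduct.lid K _ (TensorProduct.map εq.toLinearMap LinearMap.id
          (TensorProduct.map (proj F K (A0 F)) (proj F K (A0 F)) t))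
        = proj F K (A0 F) (TensorProduct.lid K _ (TensorProduct.map Coalgebra.counit
          LinearMap.id t)) := by
      intro t
      induction t with
      | zero => simp
      | tmul u v =>
        show TensorProduct.lid K _ (Coalgebra.counit (R := K) u ⊗ₜ proj F K (A0 F) v)
          = proj F K (A0 F) (TensorProduct.lid K _ (Coalgebra.counit (R := K) u ⊗ₜ v))
        rw [TensorProduct.lid_tmul, TensorProduct.lid_tmul, map_smul]
      | add s t hs ht =>
        rw [map_add, map_add, map_add, hs, ht, ← map_add, ← map_add, ← map_add]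
    have h4 : proj F K (A0 F) (EA m) = proj F K (A0 F) (g (V.coact m)) := rfl
    rw [h4, h2, h1, h3]
    have h5 : TensorProduct.map Coalgebra.counit LinearMap.id (Coalgebra.comul (R := K) a)
        = (1 : K) ⊗ₜ a := Coalgebra.rTensor_counit_comul a
    rw [h5, TensorProduct.lid_tmul, one_smul]
    exact ha
  -- it is a morphism of comodules
  have hE2 : ∀ m, TensorProduct.map EA LinearMap.id (V.coact m) = Coalgebra.comul (EA m) := by
    intro m
    have h1 : ∀ t : V.M ⊗[K] (K ⊗[F] A0 F), TensorProduct.map EA LinearMap.id t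
        = TensorProduct.map g LinearMap.id (TensorProduct.map V.coact LinearMap.id t) := by
      intro t
      rw [← LinearMap.comp_apply, ← TensorProduct.map_comp, LinearMap.comp_id]
    have h2 : ∀ t : (V.M ⊗[K] (K ⊗[F] A0 F)) ⊗[K] (K ⊗[F] A0 F),
        TensorProduct.map g LinearMap.id t
        = TensorProduct.lid K _ (TensorProduct.map ev LinearMap.id
          (TensorProduct.assoc K _ _ _ t)) := by
      intro t
      induction t with
      | zero => simp
      | tmul s w =>
        induction s with
        | zero => simp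
        | tmul u v =>
          rw [TensorProduct.assoc_tmul, TensorProduct.map_tmul, TensorProduct.map_tmul]
          show (TensorProduct.lid K _ (ev u ⊗ₜ v)) ⊗ₜ w
            = TensorProduct.lid K _ (ev u ⊗ₜ (v ⊗ₜ w))
          rw [TensorProduct.lid_tmul, TensorProduct.lid_tmul, TensorProduct.smul_tmul']
        | add s s' hs hs' =>
          rw [TensorProduct.add_tmul, map_add, hs, hs', map_add, map_add, map_add]
      | add s t hs ht => rw [map_add, hs, ht, map_add, map_add, map_add]
    have h3 : ∀ t : V.M ⊗[K] (K ⊗[F] A0 F),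
        TensorProduct.lid K _ (TensorProduct.map ev LinearMap.id
          (TensorProduct.map LinearMap.id Coalgebra.comul t))
        = Coalgebra.comul (R := K) (g t) := by
      intro t
      induction t with
      | zero => simp
      | tmul u v =>
        rw [TensorProduct.map_tmul, TensorProduct.map_tmul]
        show TensorProduct.lid K _ (ev u ⊗ₜ Coalgebra.comul (R := K) v)
          = Coalgebra.comul (R := K) (TensorProduct.lid K _ (ev u ⊗ₜ v))
        rw [TensorProduct.lid_tmul, TensorProduct.lid_tmul, map_smul]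
      | add s t hs ht => rw [map_add, map_add, map_add, hs, ht, map_add, map_add]
    rw [h1, h2, V.coassoc, h3]
    rfl
  refine core K (Fintype.card F) (card_ne F) ?_ ((phi F K).toLinearMap.comp EA)
    ((TensorProduct.map LinearMap.id (phi F K).toLinearMap).comp V.coact) ?_ ?_
  · have := FiniteField.cast_card_eq_zero F
    have h2 := congrArg (algebraMap F K) this
    rwa [map_natCast, map_zero] at h2
  · intro m
    have h1 : ∀ t : V.M ⊗[K] (K ⊗[F] A0 F),
        TensorProduct.map ((phi F K).toLinearMap.comp EA) LinearMap.id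
          (TensorProduct.map LinearMap.id (phi F K).toLinearMap t)
        = TensorProduct.map (phi F K).toLinearMap (phi F K).toLinearMap
          (TensorProduct.map EA LinearMap.id t) := by
      intro t
      rw [← LinearMap.comp_apply, ← LinearMap.comp_apply, ← TensorProduct.map_comp,
        ← TensorProduct.map_comp, LinearMap.comp_id, LinearMap.id_comp, LinearMap.comp_id]
    show TensorProduct.map ((phi F K).toLinearMap.comp EA) LinearMap.id
      (TensorProduct.map LinearMap.id (phi F K).toLinearMap (V.coact m)) = _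
    rw [h1, hE2, comul_phi]
    rfl
  · have hmk : ∀ a b : K ⊗[F] A0 F, Ideal.Quotient.mkₐ K (I K (Fintype.card F)) (phi F K a)
        = Ideal.Quotient.mkₐ K (I K (Fintype.card F)) (phi F K b)
        ↔ proj F K (A0 F) a = proj F K (A0 F) b := by
      intro a b
      rw [← sub_eq_zero, ← map_sub, ← map_sub, ← sub_eq_zero (a := proj F K (A0 F) a), ← map_sub]
      exact (Ideal.Quotient.eq_zero_iff_mem).trans
        ((frobIdeal_iff F K _).symm.trans Ideal.Quotient.eq_zero_iff_mem.symm)
    constructor
    · intro m m' h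
      have := (hmk _ _).mp h
      rw [hE1, hE1] at this
      exact e.injective this
    · intro y
      obtain ⟨f, rfl⟩ := Ideal.Quotient.mk_surjective y
      refine ⟨e.symm (proj F K (A0 F) ((phi F K).symm f)), ?_⟩
      have h1 := (hmk (EA (e.symm (proj F K (A0 F) ((phi F K).symm f)))) ((phi F K).symm f)).mpr
        (by rw [hE1, LinearEquiv.apply_symm_apply])
      rw [AlgEquiv.apply_symm_apply] at h1
      exact h1

end Main

/-- For every finite field `F` with `q` elements and every algebraically closed (indeed every)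
extension field `K` there is a connected unipotent group scheme over `F` such that the regular
module of the kernel of the `q`-Frobenius morphism has no structure of a rational module. -/
theorem result (F : Type) [Field F] [Fintype F] (K : Type) [Field K] [Algebra F K] :
    ∃ (A₀ : Type) (_ : CommRing A₀) (_ : HopfAlgebra F A₀),
      Algebra.FiniteType F A₀ ∧ IsDomain (K ⊗[F] A₀) ∧ IsUnipotent F A₀ ∧
        ∀ V : RatModule K (K ⊗[F] A₀), ¬ RegularOnFrobKer F K A₀ V := by
  refine ⟨A0 F, inferInstance, hopfA0 F, ?_, ?_, unipotent F, no_structure F K⟩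
  · exact inferInstanceAs (Algebra.FiniteType F (MvPolynomial (Fin 3) F))
  · exact (phi F K).toRingEquiv.toMulEquiv.isDomain _

end Pool.Agent.Results.MP_da3f29_al.NoRationalStructure
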